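import Pool.Agent.K1H35.SH.Stm

/-!
# SH-DC, SH-CH: double counting with switches, the chain lemma
-/

set_option autoImplicit false

namespace Pool.Agent.K1H33.SH

open Finset Pool.Agent.K1H35.SH

theorem sw_sw {n : ℕ} (t : Tup n) (G : SimpleGraph (Fin n)) : sw t (sw t G) = G := by
  ext x y
  have h1 : G.Adj x y → x ≠ y := fun h => h.ne
  change (x ≠ y ∧ (((x ≠ y ∧ ((G.Adj x y ∧ s(x, y) ∉ changed t) ∨
    (¬ G.Adj x y ∧ s(x, y) ∈ changed t))) ∧ s(x, y) ∉ changed t) ∨
      (¬ (x ≠ y ∧ ((G.Adj x y ∧ s(x, y) ∉ changed t) ∨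
        (¬ G.Adj x y ∧ s(x, y) ∈ changed t))) ∧ s(x, y) ∈ changed t))) ↔ G.Adj x y
  by_cases h2 : s(x, y) ∈ changed t <;> by_cases h3 : G.Adj x y <;> by_cases h4 : x = y <;>
    simp [h2, h3, h4]

theorem t_DC : S_DC := by
  classical
  intro n d P Q F B f g h1 h2 h3
  have hP : ∀ (p : SimpleGraph (Fin n) → Prop) (G : SimpleGraph (Fin n)),
      G ∈ (reg n d).filter p ↔ G ∈ reg n d ∧ p G := fun p G => mem_filter
  have cP : ∀ p : SimpleGraph (Fin n) → Prop, cnt n d p = ((reg n d).filter p).card := by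
    intro p
    unfold cnt
    refine congrArg Finset.card ?_
    ext G
    simp only [mem_filter]
  have e1 : f * cnt n d P ≤ (((reg n d).filter P).sigma F).card := by
    rw [card_sigma, cP, mul_comm, ← smul_eq_mul]
    refine card_nsmul_le_sum _ _ _ fun G hG => ?_
    rw [hP] at hG
    exact h2 G hG.1 hG.2
  have e2 : (((reg n d).filter Q).sigma B).card ≤ g * cnt n d Q := by
    rw [card_sigma, cP, mul_comm, ← smul_eq_mul]
    refine sum_le_card_nsmul _ _ _ fun G hG => ?_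
    rw [hP] at hG
    exact h3 G hG.1 hG.2
  refine e1.trans (le_trans ?_ e2)
  refine Finset.card_le_card_of_injOn (fun p => ⟨sw p.2 p.1, p.2⟩) ?_ ?_
  · rintro ⟨G, t⟩ hp
    rw [mem_coe, mem_sigma, hP] at hp
    obtain ⟨⟨hG, hPG⟩, ht⟩ := hp
    obtain ⟨a1, a2, a3⟩ := h1 G hG hPG t ht
    rw [mem_coe, mem_sigma, hP]
    exact ⟨⟨a1, a2⟩, a3⟩
  · rintro ⟨G, t⟩ - ⟨G', t'⟩ - h
    simp only [Sigma.mk.injEq, heq_eq_eq] at h
    obtain ⟨h4, h5⟩ := h
    subst h5
    have h6 := congrArg (sw t) h4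
    rw [sw_sw, sw_sw] at h6
    rw [h6]

theorem t_CH : S_CH := by
  intro a b J N B haN hb hstep
  have key : ∀ i ≤ J, 2 ^ i * a (J - i) ≤ N + 2 ^ i * ∑ k ∈ Ioc (J - i) J, b k := by
    intro i
    induction i with
    | zero =>
      intro _
      simpa using haN J
    | succ i ih =>
      intro hi
      have h1 := ih (by omega)
      obtain ⟨j, hj⟩ : ∃ j, j = J - (i + 1) := ⟨_, rfl⟩
      have hj1 : J - i = j + 1 := by omega
      have h2 := hstep j (by omega)
      rw [← hj]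
      rw [hj1] at h1
      have h3 : ∑ k ∈ Ioc j J, b k = b (j + 1) + ∑ k ∈ Ioc (j + 1) J, b k := by
        have h4 : Ioc j J = insert (j + 1) (Ioc (j + 1) J) := by
          ext x
          rw [mem_insert, mem_Ioc, mem_Ioc]
          omega
        rw [h4, sum_insert (by simp)]
      rw [h3]
      have h4 : 2 ^ (i + 1) * a j ≤ 2 ^ i * (a (j + 1) + b (j + 1)) := by
        rw [pow_succ, mul_assoc]
        exact Nat.mul_le_mul_left _ h2
      have h5 : 2 ^ i * (b (j + 1) + ∑ k ∈ Ioc (j + 1) J, b k) ≤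
          2 ^ (i + 1) * (b (j + 1) + ∑ k ∈ Ioc (j + 1) J, b k) :=
        Nat.mul_le_mul_right _ (Nat.pow_le_pow_right (by norm_num) (by omega))
      nlinarith
  intro j hj
  have h1 := key (J - j) (by omega)
  rw [show J - (J - j) = j by omega] at h1
  refine h1.trans ?_
  have h2 : ∑ k ∈ Ioc j J, b k ≤ B := by
    refine le_trans (sum_le_sum_of_subset fun x hx => ?_) hb
    rw [mem_Ioc] at hx
    rw [mem_range]
    omega
  have h3 := Nat.mul_le_mul_left (2 ^ (J - j)) h2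
  omega

end Pool.Agent.K1H33.SH
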