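import Pool.Agent.K1H35.SH.Stm

/-!
# SH-SW: facts on 2-switches of graphs
-/

set_option autoImplicit false

namespace Pool.Agent.K1H33.SH

open Finset Pool.Agent.K1H35.SH

theorem mem_nb {n : ℕ} {G : SimpleGraph (Fin n)} {v x : Fin n} : x ∈ nb G v ↔ G.Adj v x := by
  simp [nb]

theorem mem_reg {n d : ℕ} {G : SimpleGraph (Fin n)} : G ∈ reg n d ↔ ∀ v, (nb G v).card = d := by
  simp [reg]

theorem card_swap {α : Type} [DecidableEq α] {s : Finset α} {b c : α} (hb : b ∈ s) (hc : c ∉ s) :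
    (insert c (s.erase b)).card = s.card := by
  rw [card_insert_of_notMem (fun h => hc (mem_of_mem_erase h)), card_erase_add_one hb]

theorem prop_aux (q r p1 p2 p3 p4 : Prop) (f1 : p1 → q) (f2 : p2 → q) (f3 : p3 → ¬ q)
    (f4 : p4 → ¬ q) (f5 : p3 → r) (f6 : p4 → r) (f7 : q → r) :
    (r ∧ ((q ∧ ¬ (p1 ∨ p2 ∨ p3 ∨ p4)) ∨ (¬ q ∧ (p1 ∨ p2 ∨ p3 ∨ p4)))) ↔
      ((p3 ∨ p4) ∨ (q ∧ ¬ p1 ∧ ¬ p2)) := by
  by_cases hq : q
  · have h3 : ¬ p3 := fun h => f3 h hq
    have h4 : ¬ p4 := fun h => f4 h hq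
    simp [hq, h3, h4, f7 hq]
  · have h1 : ¬ p1 := fun h => hq (f1 h)
    have h2 : ¬ p2 := fun h => hq (f2 h)
    simp only [hq, h1, h2, false_and, not_false_eq_true, true_and, false_or, or_false]
    exact ⟨fun h => h.2, fun h => ⟨h.elim f5 f6, h⟩⟩

theorem t_SW : S_SW := by
  classical
  intro n G a b c e h
  obtain ⟨h1, h2, h3, h4, h5, h6⟩ := h
  dsimp only at h1 h2 h3 h4 h5 h6
  have hab : a ≠ b := h1.ne
  have hce : c ≠ e := h2.ne
  have hae : a ≠ e := by
    rintro rfl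
    exact h3 h2.symm
  have hbc : b ≠ c := by
    rintro rfl
    exact h3 h1
  have F : ∀ {x y u v : Fin n}, s(x, y) = s(u, v) → (G.Adj x y ↔ G.Adj u v) := by
    intro x y u v h
    rw [Sym2.eq_iff] at h
    rcases h with ⟨rfl, rfl⟩ | ⟨rfl, rfl⟩
    · rfl
    · exact G.adj_comm _ _
  have Fn : ∀ {x y u v : Fin n}, s(x, y) = s(u, v) → u ≠ v → x ≠ y := by
    intro x y u v h
    rw [Sym2.eq_iff] at h
    rcases h with ⟨rfl, rfl⟩ | ⟨rfl, rfl⟩
    · exact id
    · exact Ne.symm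
  have key : ∀ x y, (sw (a, b, c, e) G).Adj x y ↔
      ((s(x, y) = s(a, c) ∨ s(x, y) = s(b, e)) ∨
        (G.Adj x y ∧ s(x, y) ≠ s(a, b) ∧ s(x, y) ≠ s(c, e))) := by
    intro x y
    have f1 : s(x, y) = s(a, b) → G.Adj x y := fun h => (F h).2 h1
    have f2 : s(x, y) = s(c, e) → G.Adj x y := fun h => (F h).2 h2
    have f3 : s(x, y) = s(a, c) → ¬ G.Adj x y := fun h => fun h' => h3 ((F h).1 h')
    have f4 : s(x, y) = s(b, e) → ¬ G.Adj x y := fun h => fun h' => h5 ((F h).1 h')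
    have f5 : s(x, y) = s(a, c) → x ≠ y := fun h => Fn h h4
    have f6 : s(x, y) = s(b, e) → x ≠ y := fun h => Fn h h6
    have f7 : G.Adj x y → x ≠ y := fun h => h.ne
    exact prop_aux _ _ _ _ _ _ f1 f2 f3 f4 f5 f6 f7
  have na : nb (sw (a, b, c, e) G) a = insert c ((nb G a).erase b) := by
    ext x
    rw [mem_nb, key, mem_insert, mem_erase, mem_nb]
    simp only [Sym2.eq_iff, ne_eq, hab, hae, h4, true_and, false_and, or_false]
    tauto
  have nb' : nb (sw (a, b, c, e) G) b = insert e ((nb G b).erase a) := by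
    ext x
    rw [mem_nb, key, mem_insert, mem_erase, mem_nb]
    simp only [Sym2.eq_iff, ne_eq, hab.symm, hbc, h6, true_and, false_and, or_false, false_or]
    tauto
  have nc : nb (sw (a, b, c, e) G) c = insert a ((nb G c).erase e) := by
    ext x
    rw [mem_nb, key, mem_insert, mem_erase, mem_nb]
    simp only [Sym2.eq_iff, ne_eq, hbc.symm, hce, h4.symm, true_and, false_and, or_false, false_or]
    tauto
  have ne' : nb (sw (a, b, c, e) G) e = insert b ((nb G e).erase c) := by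
    ext x
    rw [mem_nb, key, mem_insert, mem_erase, mem_nb]
    simp only [Sym2.eq_iff, ne_eq, hce.symm, hae.symm, h6.symm, true_and, false_and, or_false,
      false_or]
    tauto
  have nz : ∀ z, z ≠ a → z ≠ b → z ≠ c → z ≠ e → nb (sw (a, b, c, e) G) z = nb G z := by
    intro z za zb zc ze
    ext x
    rw [mem_nb, key, mem_nb]
    simp only [Sym2.eq_iff, ne_eq, za, zb, zc, ze, false_and, or_false, not_false_eq_true,
      and_true, false_or]
  refine ⟨key, na, nb', nc, ne', nz, fun d hd => ?_⟩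
  rw [mem_reg] at hd ⊢
  intro v
  by_cases va : v = a
  · subst va
    rw [na, card_swap (mem_nb.2 h1) (fun h => h3 (mem_nb.1 h)), hd]
  by_cases vb : v = b
  · subst vb
    rw [nb', card_swap (mem_nb.2 h1.symm) (fun h => h5 (mem_nb.1 h)), hd]
  by_cases vc : v = c
  · subst vc
    rw [nc, card_swap (mem_nb.2 h2) (fun h => h3 (mem_nb.1 h).symm), hd]
  by_cases ve : v = e
  · subst ve
    rw [ne', card_swap (mem_nb.2 h2.symm) (fun h => h5 (mem_nb.1 h).symm), hd]
  rw [nz v va vb vc ve, hd]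

end Pool.Agent.K1H33.SH
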